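import Mathlib
import Pool.Agent.Run7.h31.ES.Main

/-!
# The Mumford-Tate conjecture for abelian varieties with one Frobenius element, with an exact criterion
# for the maximality of its angle rank in terms of the slopes of factors over the Frobenius fields

Let `A` be an abelian variety over a number field, of any dimension and with arbitrary endomorphisms,
with good reduction at ONE place, with a residue field of `q = p ^ a` elements, and suppose that the
characteristic polynomial of the Frobenius element is the product of the (different) minimal
polynomials `f i` of Weil numbers `π i` in CM fields `K i = ℚ(π i)`, `i ∈ I`. Most criteria for
the Mumford-Tate conjecture and the Tate conjecture on all powers of `A` in terms of such a Frobenius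
element are criteria for the maximality of the angle rank (`MaximalAngleRank`): the only
multiplicative relations between the Frobenius eigenvalues are the trivial ones. They use strong
conditions on the Galois group of the Galois closure, on the degrees, or on the Newton polygons. Here
we give a necessary and sufficient condition for all CM fields and all slopes, which can be checked by
linear algebra in each of the fields `K i`; the Galois closure is not used.

**The criterion.** For `i ∈ I` let `h` be a monic irreducible factor over `K i` of one of the
polynomials `f l`. Its slope function `slope p a h` is the function on the set of the embeddings `τ`
of `K i` in the algebraic closure of `ℚ_p` whose value at `τ` is the sum of the numbers `2 ord_p y - a`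
over the roots `y` of `τ h`; it is `2 ord_p (τ (h 0)) - a * deg h`. The slope function of `X - π i` is
the function `dev p a (π i)`, whose values are `a (2 λ - 1)` for the slopes `λ`. The factors different
from `X - π i` and its complex conjugate are the other factors (`IsOther`).

1. The angle rank is maximal if and only if for each `i` the slope function of `π i` is not a linear
   combination with rational coefficients of the slope functions of the other factors over `K i`
   (`SlopesIndependent`).
2. Let `w l > 0` be rational numbers. If the angle rank is not maximal, then for some `i` there is such
   a combination with small coefficients: the coefficient of a factor of `f l` is at most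
   `w i / (2 w l)` (`NoSmallCombination`). In particular (`w = 1`) the combinations with coefficients
   of absolute value at most `1 / 2` are sufficient.
3. Therefore the angle rank is maximal if the slope functions of the `π i` dominate (`Dominates`): for
   each `i` there is an embedding `τ` such that `∑ |slope h τ| / w l < 2 |dev (π i) τ| / w i`, the sum
   over all the other factors `h` (`h` being a factor of `f l`). For one field this contains the
   criterion of the starting result `DominantSlope` (with strict inequality), in which the sum is over
   all the other roots and not over the factors, so that there is no cancellation.
4. A factor `h` whose constant coefficient is real has slope function zero. If for `l ≠ i` all factors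
   of `f l` over `K i` have this property (for instance if `f l` is irreducible over `K i`, that is, if
   `K i ⊗ K l` is a field; no condition on the Galois closures), then the criterion for the family is
   the criterion for the single numbers `π i` (`RealCrossFactors`).

**The Mumford-Tate conjecture.** If the condition of the first part holds for one Frobenius element of
`A`, then for all prime numbers `ℓ` all Tate classes in the tensor powers of `H_1(A)` are linear
combinations of products of Hodge classes of degree two (`MumfordTateStrong`). So for all powers of
`A` the Tate classes and the Hodge classes generate the same spaces (Hodge classes on abelian
varieties are Tate classes by the theorem of Deligne), and are generated by classes of divisors.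

In the formal statement (`IsRealization`) `W` is `H_1(A, ℚ)`, `T` the tangent space at the origin and
`per : W → T` the inclusion, `ω₀` is the form given by a polarization; `V` is the rational Tate module
with the comparison map `comp : W → V`, the action `ρ` of the Galois group and the Weil pairing `ω`;
`χ` is the cyclotomic character. The theorems of Faltings on endomorphisms and on semisimplicity are
part of the data.

The proof of the criterion. A nontrivial relation gives an odd function `c ≠ 0` on the set of all
embeddings of the fields in the Galois closure `L`, orthogonal to all translates of the deviations.
Let `x` be an embedding of `K i` at which `w i |c|` is maximal. We take the mean of `c` over the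
stabilizer of `x`; it is constant on the orbits of the stabilizer, and these correspond to the
irreducible factors over `K i` of the `f l`. The value at `x` does not change, and the other values are
at most `w i |c x| / w l`. The relation for the mean says that the slope function of `π i` is a
combination of the slope functions of the other factors, with these coefficients. Conversely, a
linear combination gives a product of powers of `π i` and of constant coefficients `h 0` all of whose
absolute values are trivial, so it is a root of unity by the theorem of Kronecker, and this is a
nontrivial relation.
-/

set_option autoImplicit false

namespace Pool.Agent.Results.MP_6c781a_ag.ExactSlopeCriterion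

open NumberField Module Pool.Agent.TH170 Run7.h31.ES

/-- **The exact slope criterion, and the Mumford-Tate conjecture for the abelian varieties with a
Frobenius element that satisfies it.** -/
theorem result :
    (∀ (p : ℕ) [Fact p.Prime] (a : ℕ) (I : Type) [Fintype I] (K : I → Type) [∀ i, Field (K i)]
      [∀ i, NumberField (K i)] [∀ i, IsCMField (K i)] (π : ∀ i, K i),
      IsWeilFamily p (fun _ => a) π → ExactCriterion p a π) ∧
    (∀ (p : ℕ) [Fact p.Prime] (a : ℕ) (I : Type) [Fintype I] (K : I → Type) [∀ i, Field (K i)]
      [∀ i, NumberField (K i)] [∀ i, IsCMField (K i)] (π : ∀ i, K i), 0 < a →
      IsWeilFamily p (fun _ => a) π → SlopesIndependent p (fun _ => a) π →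
      ∀ (ℓ : ℕ) [Fact ℓ.Prime] (W T V Γ : Type) [AddCommGroup W] [Module ℚ W]
        [AddCommGroup T] [Module ℂ T] [AddCommGroup V] [Module ℚ_[ℓ] V]
        [FiniteDimensional ℚ_[ℓ] V] [Group Γ] (per : W →+ T) (ω₀ : W →ₗ[ℚ] W →ₗ[ℚ] ℚ)
        (comp : W →+ V) (ρ : Representation ℚ_[ℓ] Γ V) (χ : Γ →* ℚ_[ℓ])
        (ω : V →ₗ[ℚ_[ℓ]] V →ₗ[ℚ_[ℓ]] ℚ_[ℓ]),
        FT.IsRealization per ω₀ comp ρ χ ω → FT.HasFrobenius ρ χ p a π →
          Pool.Agent.H204R3.GP.MumfordTateStrong per comp ρ χ) := by
  refine ⟨?_, ?_⟩
  · intro p _ a I _ K _ _ _ π h
    exact exactCriterion h
  · intro p _ a I _ K _ _ _ π ha h hs ℓ _ W T V Γ _ _ _ _ _ _ _ _ per ω₀ comp ρ χ ω hR hF
    exact mumfordTate_of_slopes ha h hs hR hF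

end Pool.Agent.Results.MP_6c781a_ag.ExactSlopeCriterion
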