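import Pool.Agent.Run7.h457.MT.Final

/-!
# Tate classes on products of hyperkähler varieties are spanned by Hodge classes

Let `X_1, …, X_r` be projective hyperkähler varieties over a number field `K`, of any deformation types.

**Theorem.** If the Mumford-Tate conjecture holds for the sum of the `H²(X_t)` (this is the theorem of
André for `r = 1` and of Commelin in general, `b_2 > 3`), then on all products of copies of the `X_t`,
in particular on all powers of `Y = X_1 × ⋯ × X_r`, and for all `j` and `ℓ`, the space of Tate classes in
`H^(2j)(j)` is the `ℚ_ℓ`-span of the Hodge classes.

Before, this was known for the four known deformation types (and their products), where `H^*` is in the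
tensor category generated by motives of abelian type.

Idea of the proof. The Lie algebra `so(H²)` acts on `H^i` (Verbitsky, Looijenga-Lunts). Let `R_i` be the
map from `gso(H²)` to `gl(H^i)` given by this action and by the scalars `i / 2`. The Galois group
normalizes `so(H²)`, so it acts on the commutant `A_i` of `so(H²)` in `End(H^i)`. At a good place of
degree one `A_i` has only the slope zero, because the Hodge filtration of `H^i` is given by an
element of `so(H²)` (weak admissibility); so the eigenvalues of Frobenius on `A_i` are roots of unity of
bounded order, and by Chebotarev's theorem an open subgroup `U` of the Galois group acts unipotently on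
`A_i`. At the places above `ℓ` Sen's operator is given by an element of `so(H²)` as well, so open
subgroups of the inertia groups act trivially on `A_i`; as there are no unramified additive characters
(class field theory) and by Kolchin's theorem `U` acts trivially on `A_i`. Let `L_i(σ)` be the logarithm of
`σ` on `H^i`, for `σ` near `1`. Then `L_i(σ) - R_i(L_2(σ))` is in the centre of `A_i`, and by the
determinants of the Frobenius elements its traces on the images of the idempotents of `A_i` are zero. As
`H^i` is a semisimple representation of `so(H²)` (Weyl), `L_i(σ) = R_i(L_2(σ))`. So the Lie algebra of the
image of the Galois group on a tensor product of the `H^i` is the image of the one on the sum of the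
`H²(X_t)`, as for the Lie algebra of the Mumford-Tate group, because the Hodge structures of the `H^i`
are given by elements of `so(H²)`, too (Verbitsky).
-/

set_option autoImplicit false

namespace Pool.Agent.Results.MP_6c781a_ag.HyperkaehlerProducts

open Run7.h457.MT NumberField

/-- **Tate classes and Hodge classes on products of hyperkähler varieties.** Let `V` be a finite family
of projective hyperkähler varieties `V t` over the number field `K` for which the Mumford-Tate
conjecture holds in degree two. Let `Y` be the product of the varieties `V (τ s)`, `s ∈ S`. A class
`x` in `H^(2 j)(j)` of `Y` is a Tate class if and only if it is a linear combination of Hodge classes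
with coefficients in `ℚ_ℓ`. -/
theorem result {K : Type} [Field K] [NumberField K] {ℓ : ℕ} [Fact ℓ.Prime] {T : Type} [Fintype T]
    [DecidableEq T] (V : T → HK K ℓ) (h2 : MumfordTateTwo V) {S : Type}
    [Fintype S] [DecidableEq S] (τ : S → T) (j : ℕ)
    (x : Idx (fun s => V (τ s)) (2 * j) → ℚ_[ℓ]) :
    IsTateClass (fun s => V (τ s)) j x ↔
      x ∈ Submodule.span ℚ_[ℓ] {x | ∃ v, IsHodgeClass (fun s => V (τ s)) j v ∧
        x = fun k => (v k : ℚ_[ℓ])} :=
  tate_thm V τ h2 j x

end Pool.Agent.Results.MP_6c781a_ag.HyperkaehlerProducts
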