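import Pool.Agent.Run7.h877.TS.Conv3

/-!
# The Mumford-Tate conjecture for an abelian variety is decided by its square

Let `X` be an abelian variety of dimension `g` over the algebraic closure `k` of a finitely
generated field `k₁` of characteristic zero, defined over `k₁`, and let `ℓ` be a prime number. There
is no condition on the endomorphisms of `X`. The known theorems which are used are hypotheses:

* Hodge classes on the powers of `X` are Tate classes (Deligne),
* the representation of the Galois group on `H(X, ℚ_ℓ)` is semisimple (Faltings),
* the Lie algebra of the `ℓ`-adic algebraic monodromy group is generated by its elements, with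
  extended coefficients, which are idempotent on `H^1(X)` (`HodgeCocharactersGenerate`; this is a
  theorem of Pink: the group is generated by the Hodge cocharacters). It is used in the following
  weak form: a linear map of `H^1(X)` to itself which commutes with all these idempotents commutes
  with an open subgroup of the Galois group,
* the centre of the Lie algebra of the Hodge group is contained in the Lie algebra of the `ℓ`-adic
  monodromy group (`CentreInMonodromy`; Vasiu, Ullmo and Yafaev).

**Theorem.** If the Tate classes of codimension `1` and `g` on `X × X` are `ℚ_ℓ`-linear combinations
of Hodge classes, then all Tate classes, of any codimension, on all powers of `X` are `ℚ_ℓ`-linear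
combinations of Hodge classes.

In codimension one the hypothesis is known, by Faltings. The conclusion is the Mumford-Tate
conjecture for `X`: the algebraic monodromy group is reductive (Faltings), so its identity component
is the group which fixes the Tate classes on all powers of `X`, as the Mumford-Tate group is the group
which fixes the Hodge classes. So the Mumford-Tate conjecture for `X` is a statement about the Tate
classes in the middle cohomology `H^{2g}(X × X)`; these are, by duality, the operators of the one
representation `Λ^g H^1(X) = H^g(X)` which commute with an open subgroup of the Galois group, and the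
Tate classes in the other parts `H^i(X) ⊗ H^(2g-i)(X)`.

## Proof

Let `V = H^1(X)`, let `L` be the Lie algebra of the operators of `V` over `ℚ_ℓ` which kill all Tate
forms, and let `D` be an operator which kills all Hodge forms; we want `D ∈ L`. By semisimplicity the
trace form of `V` is not degenerate on `L`. Let `D = l + b` with `l ∈ L` and `b` orthogonal to `L`. The
space `Λ^g V` is a semisimple representation of `L`, and every operator of `Λ^g V` which commutes with
`L` is, up to duality and `ℓ`-adic logarithms, a Tate class in `H^g(X) ⊗ H^g(X)`, so it commutes with
`D` and with `b`. By the density theorem `D` and `b` preserve all subspaces of `Λ^g V ⊗ Ω` which are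
stable under `L`. Let `Φ = Z + c` be an idempotent of `V ⊗ Ω`, with `Z ∈ L ⊗ Ω`. Its image is
lagrangian, so its top exterior power is a line `t` in `Λ^g V ⊗ Ω`, the eigenline of the highest
weight of `Z`. The operator `b` maps `t` into the space generated by `t` under `L`, and the
operators in this space which lower the weight by one are those of `L`: so `(1 - Φ) b Φ = (1 - Φ) m Φ`
for some `m ∈ L ⊗ Ω`, and similarly for `Φ b (1 - Φ)`. As `b` is orthogonal to `L` for the trace form,
these parts vanish, and `b` commutes with `Φ`. By the theorem of Pink `b` commutes with an open
subgroup of the Galois group. So `b` is a combination of endomorphisms of the Hodge structure `V`, is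
in the centre, and kills the Hodge forms; by the theorem on the centre `b ∈ L`. Hence `D ∈ L`.
-/

universe u

namespace Pool.Agent.Results.MP_6c781a_ag.MiddleClassesOfSquare

open Pool.Agent.H914 Pool.Agent.H914.VarClass Pool.Agent.Y121.AHS Pool.Agent.N996.FP Run7.h226
  Run7.h877.SQ
open Pool.Agent.Y133.Half (pw)

variable {k : Type u} [Field k] {𝒱 : VarClass k} {ops : CycleOps 𝒱}

/-- **The Tate classes in the middle degree on the square decide the Mumford-Tate conjecture.** -/
theorem result (T : HodgeTheory ops) (X : 𝒱.Obj) (ψ : RForm T.W X)
    (hψ : IsPolarisation T X ψ) (hX : OfAbelianType T X)
    (E : PrimeNumber T) (Γ : Type) [Group Γ] [TopologicalSpace Γ]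
    [IsTopologicalGroup Γ] [CompactSpace Γ] (R : GaloisAction E X Γ)
    (hD : ∀ n j (a : E.H (pw X n)), IsHdg j a → IsTate R n j a)
    (hF : ContRep.Semisimple (R.r 0)) (hP : HodgeCocharactersGenerate R)
    (hC : CentreInMonodromy R) :
    TateIsHodgeIn R 1 1 → TateIsHodgeIn R 1 X.dim → ∀ n j, TateIsHodgeIn R n j :=
  final_mt hψ hX hD hF hP hC

end Pool.Agent.Results.MP_6c781a_ag.MiddleClassesOfSquare
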